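import Mathlib
import Pool.Agent.Lib.MP_563419_an.Defs
import Pool.Agent.Lib.MP_563419_an.NoRetraction

open MvPolynomial Sum Pool.Agent.Lib.MP_563419_an

namespace Pool.Agent.Results.MP_563419_an.HighCodimension

/-- Index set of the coordinates of `ℂ^(3+3+m)`. -/
abbrev Idx (m : ℕ) : Type := Fin 3 ⊕ (Fin 3 ⊕ Fin m)

/-- `Z = Q × ℂ^(3+m)`, with `Q = {p (1 - p) = q r} ⊆ ℂ³`. -/
def Zset (m : ℕ) : Set (Idx m → ℂ) :=
  {x | x (inl 0) * (1 - x (inl 0)) = x (inl 1) * x (inl 2)}

/-- `X = Q × {0}`. -/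
def Xset (m : ℕ) : Set (Idx m → ℂ) :=
  {x | x (inl 0) * (1 - x (inl 0)) = x (inl 1) * x (inl 2) ∧ ∀ j, x (inr j) = 0}

/-- `Y = {(1,0,0)} × Q × {0}`. -/
def Yset (m : ℕ) : Set (Idx m → ℂ) :=
  {x | x (inl 0) = 1 ∧ x (inl 1) = 0 ∧ x (inl 2) = 0 ∧
    x (inr (inl 0)) * (1 - x (inr (inl 0))) = x (inr (inl 1)) * x (inr (inl 2)) ∧
    ∀ k, x (inr (inr k)) = 0}

/-- the defining polynomial -/
noncomputable def Fpol (m : ℕ) : MvPolynomial (Idx m) ℂ :=
  X (inl 0) - X (inl 0) ^ 2 - X (inl 1) * X (inl 2)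

lemma irreducible_Fpol (m : ℕ) : Irreducible (Fpol m) := by
  have h := irreducible_mul_X_add (R := ℂ) (-X (inl 2) : MvPolynomial (Idx m) ℂ)
    (X (inl 0) - X (inl 0) ^ 2) (inl 1) (neg_ne_zero.2 (X_ne_zero _)) ?_ ?_ ?_
  · have e : Fpol m = -X (inl 2) * X (inl 1) + (X (inl 0) - X (inl 0) ^ 2) := by
      unfold Fpol; ring
    rw [e]; exact h
  · rw [vars_neg, vars_X]; simp
  · intro hmem
    have h1 := vars_sub_subset (p := (X (inl 0) : MvPolynomial (Idx m) ℂ)) (q := X (inl 0) ^ 2) hmem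
    have h2 : (inl 1 : Idx m) ∈ (X (inl 0) : MvPolynomial (Idx m) ℂ).vars := by
      rcases Finset.mem_union.1 h1 with h3 | h3
      · exact h3
      · exact vars_pow _ _ h3
    rw [vars_X] at h2
    simp at h2
  · have hirr : Irreducible (X (inl 2) : MvPolynomial (Idx m) ℂ) := X_prime.irreducible
    have h1 : IsRelPrime (X (inl 2) : MvPolynomial (Idx m) ℂ) (X (inl 0) - X (inl 0) ^ 2) := by
      rw [hirr.isRelPrime_iff_not_dvd]
      rintro ⟨c, hc⟩
      have := congrArg (eval (fun i : Idx m => if i = inl 0 then (2 : ℂ) else 0)) hc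
      simp at this
      norm_num at this
    exact h1.neg_left

noncomputable abbrev I (m : ℕ) : Ideal (MvPolynomial (Idx m) ℂ) := Ideal.span {Fpol m}

instance prime_I (m : ℕ) : (I m).IsPrime :=
  (Ideal.span_singleton_prime (irreducible_Fpol m).ne_zero).2 (irreducible_Fpol m).prime

lemma zeroLocus_I (m : ℕ) : zeroLocus ℂ (I m) = Zset m := by
  rw [zeroLocus_span]
  ext x
  simp only [Set.mem_singleton_iff, forall_eq, Set.mem_ofPred_eq, Zset, Fpol, map_sub, map_mul,
    map_pow, aeval_X]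
  constructor
  · intro h; linear_combination h
  · intro h; linear_combination h

lemma vanishing_Z (m : ℕ) : vanishingIdeal ℂ (Zset m) = I m := by
  rw [← zeroLocus_I]
  exact MvPolynomial.IsPrime.vanishingIdeal_zeroLocus _


section AOSDP

variable (m : ℕ)

/-- the field `p ↦ r, q ↦ 1 - 2p, r ↦ 0` -/
noncomputable def V1 : Derivation ℂ (MvPolynomial (Idx m) ℂ) (MvPolynomial (Idx m) ℂ) :=
  mkDerivation ℂ (Sum.elim ![X (inl 2), 1 - 2 * X (inl 0), 0] (fun _ => 0))

/-- the field `p ↦ -q, q ↦ 0, r ↦ 2p - 1` -/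
noncomputable def V2 : Derivation ℂ (MvPolynomial (Idx m) ℂ) (MvPolynomial (Idx m) ℂ) :=
  mkDerivation ℂ (Sum.elim ![-X (inl 1), 0, 2 * X (inl 0) - 1] (fun _ => 0))

lemma V1_0 : V1 m (X (inl 0)) = X (inl 2) := by simp [V1, mkDerivation_X]
lemma V1_1 : V1 m (X (inl 1)) = 1 - 2 * X (inl 0) := by simp [V1, mkDerivation_X]
lemma V1_2 : V1 m (X (inl 2)) = 0 := by simp [V1, mkDerivation_X]
lemma V1_r (j) : V1 m (X (inr j)) = 0 := by simp [V1, mkDerivation_X]
lemma V2_0 : V2 m (X (inl 0)) = -X (inl 1) := by simp [V2, mkDerivation_X]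
lemma V2_1 : V2 m (X (inl 1)) = 0 := by simp [V2, mkDerivation_X]
lemma V2_2 : V2 m (X (inl 2)) = 2 * X (inl 0) - 1 := by simp [V2, mkDerivation_X]
lemma V2_r (j) : V2 m (X (inr j)) = 0 := by simp [V2, mkDerivation_X]

lemma V1_F : V1 m (Fpol m) = 0 := by
  unfold Fpol
  rw [map_sub, map_sub, Derivation.leibniz, Derivation.leibniz_pow, V1_0, V1_1, V1_2]
  simp only [smul_eq_mul, nsmul_eq_mul]
  push_cast
  ring

lemma V2_F : V2 m (Fpol m) = 0 := by
  unfold Fpol
  rw [map_sub, map_sub, Derivation.leibniz, Derivation.leibniz_pow, V2_0, V2_1, V2_2]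
  simp only [smul_eq_mul, nsmul_eq_mul]
  push_cast
  ring

lemma pderiv_F (j : Fin 3 ⊕ Fin m) : pderiv (inr j) (Fpol m) = 0 := by
  unfold Fpol
  rw [map_sub, map_sub, Derivation.leibniz, Derivation.leibniz_pow]
  simp

abbrev A : Type := MvPolynomial (Idx m) ℂ ⧸ I m

noncomputable def D1 : Derivation ℂ (A m) (A m) := descend (I m) (V1 m) (preserves_span (V1_F m))
noncomputable def D2 : Derivation ℂ (A m) (A m) := descend (I m) (V2 m) (preserves_span (V2_F m))
noncomputable def P (j : Fin 3 ⊕ Fin m) : Derivation ℂ (A m) (A m) :=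
  descend (I m) (pderiv (inr j)) (preserves_span (pderiv_F m j))

/-- the image of a variable -/
noncomputable abbrev x (i : Idx m) : A m := Ideal.Quotient.mk (I m) (X i)

lemma D1_0 : D1 m (x m (inl 0)) = x m (inl 2) := by
  simp only [D1, x, descend_mk, V1_0]
lemma D1_1 : D1 m (x m (inl 1)) = 1 - 2 * x m (inl 0) := by
  simp only [D1, x, descend_mk, V1_1, map_sub, map_mul, map_one, map_ofNat]
lemma D1_2 : D1 m (x m (inl 2)) = 0 := by
  simp only [D1, x, descend_mk, V1_2, map_zero]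
lemma D1_r (j) : D1 m (x m (inr j)) = 0 := by
  simp only [D1, x, descend_mk, V1_r, map_zero]
lemma D2_0 : D2 m (x m (inl 0)) = -x m (inl 1) := by
  simp only [D2, x, descend_mk, V2_0, map_neg]
lemma D2_1 : D2 m (x m (inl 1)) = 0 := by
  simp only [D2, x, descend_mk, V2_1, map_zero]
lemma D2_2 : D2 m (x m (inl 2)) = 2 * x m (inl 0) - 1 := by
  simp only [D2, x, descend_mk, V2_2, map_sub, map_mul, map_one, map_ofNat]
lemma D2_r (j) : D2 m (x m (inr j)) = 0 := by
  simp only [D2, x, descend_mk, V2_r, map_zero]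
lemma P_l (j) (i : Fin 3) : P m j (x m (inl i)) = 0 := by
  simp only [P, x, descend_mk]
  rw [pderiv_X_of_ne (by simp), map_zero]
lemma P_r (j k) : P m j (x m (inr k)) = if k = j then 1 else 0 := by
  simp only [P, x, descend_mk]
  rw [pderiv_X, Pi.single_apply]
  by_cases h : k = j
  · subst h; simp
  · simp [h]

lemma rel : (1 - 2 * x m (inl 0)) ^ 2 + 4 * (x m (inl 1) * x m (inl 2)) = 1 := by
  have h : Ideal.Quotient.mk (I m) (Fpol m) = 0 :=
    Ideal.Quotient.eq_zero_iff_mem.2 (Ideal.mem_span_singleton_self _)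
  unfold Fpol at h
  rw [map_sub, map_sub, map_mul, map_pow] at h
  linear_combination (-4) * h

lemma rel' : x m (inl 0) - x m (inl 0) ^ 2 - x m (inl 1) * x m (inl 2) = 0 := by
  have h : Ideal.Quotient.mk (I m) (Fpol m) = 0 :=
    Ideal.Quotient.eq_zero_iff_mem.2 (Ideal.mem_span_singleton_self _)
  unfold Fpol at h
  rw [map_sub, map_sub, map_mul, map_pow] at h
  exact h

lemma idx_cases {motive : Idx m → Prop} (h0 : motive (inl 0)) (h1 : motive (inl 1))
    (h2 : motive (inl 2)) (hr : ∀ j, motive (inr j)) : ∀ i, motive i := by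
  rintro (i | j)
  · fin_cases i
    · exact h0
    · exact h1
    · exact h2
  · exact hr j

lemma lnd_D1 : IsLND (D1 m) := by
  refine isLND_of_gen (idx_cases m ?_ ?_ ?_ ?_)
  · refine ⟨2, ?_⟩
    change D1 m (D1 m (x m (inl 0))) = 0
    rw [D1_0, D1_2]
  · refine ⟨3, ?_⟩
    change D1 m (D1 m (D1 m (x m (inl 1)))) = 0
    have e : (2 : A m) * x m (inl 0) = x m (inl 0) + x m (inl 0) := by ring
    rw [D1_1, map_sub, Derivation.map_one_eq_zero, e, map_add, D1_0, map_sub, map_zero, map_add,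
      D1_2]
    simp
  · refine ⟨1, ?_⟩
    change D1 m (x m (inl 2)) = 0
    exact D1_2 m
  · intro j
    refine ⟨1, ?_⟩
    change D1 m (x m (inr j)) = 0
    exact D1_r m j

lemma lnd_D2 : IsLND (D2 m) := by
  refine isLND_of_gen (idx_cases m ?_ ?_ ?_ ?_)
  · refine ⟨2, ?_⟩
    change D2 m (D2 m (x m (inl 0))) = 0
    rw [D2_0, map_neg, D2_1, neg_zero]
  · refine ⟨1, ?_⟩
    change D2 m (x m (inl 1)) = 0
    exact D2_1 m
  · refine ⟨3, ?_⟩
    change D2 m (D2 m (D2 m (x m (inl 2)))) = 0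
    have e : (2 : A m) * x m (inl 0) = x m (inl 0) + x m (inl 0) := by ring
    rw [D2_2, map_sub, Derivation.map_one_eq_zero, e, map_add, D2_0, map_sub, map_zero, map_add,
      map_neg, D2_1]
    simp
  · intro j
    refine ⟨1, ?_⟩
    change D2 m (x m (inr j)) = 0
    exact D2_r m j

lemma lnd_P (j) : IsLND (P m j) := by
  refine isLND_of_gen ?_
  rintro (i | k)
  · refine ⟨1, ?_⟩
    change P m j (x m (inl i)) = 0
    exact P_l m j i
  · refine ⟨2, ?_⟩
    change P m j (P m j (x m (inr k))) = 0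
    rw [P_r]
    split_ifs
    · exact Derivation.map_one_eq_zero _
    · exact map_zero _

lemma smul_D1_mem (g : A m) : g • D1 m ∈ overshearLie (A m) :=
  smul_mem_of_pderiv (inr (inl 0)) (preserves_span (pderiv_F m (inl 0))) (lnd_D1 m)
    (D1_r m (inl 0)) g

lemma smul_D2_mem (g : A m) : g • D2 m ∈ overshearLie (A m) :=
  smul_mem_of_pderiv (inr (inl 0)) (preserves_span (pderiv_F m (inl 0))) (lnd_D2 m)
    (D2_r m (inl 0)) g

/-- the semisimple field -/
noncomputable def DH : Derivation ℂ (A m) (A m) := ⁅D1 m, D2 m⁆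

lemma smul_DH_mem (g : A m) : g • DH m ∈ overshearLie (A m) :=
  smul_commutator_mem (one_smul_mem (smul_D2_mem m)) (smul_D1_mem m) g

lemma DH_0 : DH m (x m (inl 0)) = 0 := by
  rw [DH, Derivation.commutator_apply, D1_0, D2_0, map_neg, D1_1, D2_2]
  ring

lemma DH_1 : DH m (x m (inl 1)) = -2 * x m (inl 1) := by
  have e : (2 : A m) * x m (inl 0) = x m (inl 0) + x m (inl 0) := by ring
  rw [DH, Derivation.commutator_apply, D2_1, D1_1, map_sub, Derivation.map_one_eq_zero, e,
    map_add, D2_0, map_zero]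
  ring

lemma DH_2 : DH m (x m (inl 2)) = 2 * x m (inl 2) := by
  have e : (2 : A m) * x m (inl 0) = x m (inl 0) + x m (inl 0) := by ring
  rw [DH, Derivation.commutator_apply, D1_2, D2_2, map_sub, Derivation.map_one_eq_zero, e,
    map_add, D1_0, map_zero]
  ring

lemma DH_r (j) : DH m (x m (inr j)) = 0 := by
  rw [DH, Derivation.commutator_apply, D1_r, D2_r, map_zero, map_zero, sub_zero]

lemma comm_D1_P (j) : ⁅D1 m, P m j⁆ = 0 := by
  refine der_ext (idx_cases m ?_ ?_ ?_ ?_)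
  · change ⁅D1 m, P m j⁆ (x m (inl 0)) = 0
    rw [Derivation.commutator_apply, P_l, D1_0, P_l, map_zero, sub_zero]
  · change ⁅D1 m, P m j⁆ (x m (inl 1)) = 0
    have e : (2 : A m) * x m (inl 0) = x m (inl 0) + x m (inl 0) := by ring
    rw [Derivation.commutator_apply, P_l, D1_1, map_sub, Derivation.map_one_eq_zero, e, map_add,
      P_l, map_zero]
    simp
  · change ⁅D1 m, P m j⁆ (x m (inl 2)) = 0
    rw [Derivation.commutator_apply, P_l, D1_2, map_zero, map_zero, sub_zero]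
  · intro k
    change ⁅D1 m, P m j⁆ (x m (inr k)) = 0
    rw [Derivation.commutator_apply, P_r, D1_r, map_zero]
    split_ifs
    · rw [Derivation.map_one_eq_zero, sub_zero]
    · rw [map_zero, sub_zero]

lemma comm_D2_P (j) : ⁅D2 m, P m j⁆ = 0 := by
  refine der_ext (idx_cases m ?_ ?_ ?_ ?_)
  · change ⁅D2 m, P m j⁆ (x m (inl 0)) = 0
    rw [Derivation.commutator_apply, P_l, D2_0, map_neg, P_l, map_zero]
    simp
  · change ⁅D2 m, P m j⁆ (x m (inl 1)) = 0
    rw [Derivation.commutator_apply, P_l, D2_1, map_zero, map_zero, sub_zero]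
  · change ⁅D2 m, P m j⁆ (x m (inl 2)) = 0
    have e : (2 : A m) * x m (inl 0) = x m (inl 0) + x m (inl 0) := by ring
    rw [Derivation.commutator_apply, P_l, D2_2, map_sub, Derivation.map_one_eq_zero, e, map_add,
      P_l, map_zero]
    simp
  · intro k
    change ⁅D2 m, P m j⁆ (x m (inr k)) = 0
    rw [Derivation.commutator_apply, P_r, D2_r, map_zero]
    split_ifs
    · rw [Derivation.map_one_eq_zero, sub_zero]
    · rw [map_zero, sub_zero]

lemma shear_P_mem (j) (h : A m) (hh : P m j h = 0) : h • P m j ∈ overshearLie (A m) :=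
  mem_of_overshear (lnd_P m j) (by rw [hh, map_zero])

lemma mul_P_mem1 (j) (g h : A m) (hh : P m j h = 0) :
    (g * D1 m h) • P m j ∈ overshearLie (A m) :=
  smul_mul_mem (comm_D1_P m j) (smul_D1_mem m) g h (shear_P_mem m j h hh)

lemma smul_P_mem (j) (g : A m) : g • P m j ∈ overshearLie (A m) := by
  have h1 := mul_P_mem1 m j (g * (1 - 2 * x m (inl 0))) (x m (inl 1)) (P_l m j 1)
  have h2 := mul_P_mem1 m j (g * (4 * x m (inl 1))) (x m (inl 0)) (P_l m j 0)
  rw [D1_1] at h1
  rw [D1_0] at h2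
  have h3 := add_smul_mem h1 h2
  have e : g * (1 - 2 * x m (inl 0)) * (1 - 2 * x m (inl 0)) + g * (4 * x m (inl 1)) * x m (inl 2)
      = g := by
    have := rel m
    linear_combination g * this
  rwa [e] at h3

theorem lie_eq_top : overshearLie (A m) = ⊤ := by
  rw [eq_top_iff]
  intro D _
  set p := x m (inl 0) with hp
  set q := x m (inl 1) with hq
  set r := x m (inl 2) with hr
  set e := D p with he
  set f := D q with hf
  set g := D r with hg
  have hrel : e * (1 - 2 * p) = f * r + g * q := by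
    have h := congrArg D (rel' m)
    rw [map_zero, map_sub, map_sub, Derivation.leibniz, Derivation.leibniz_pow] at h
    simp only [smul_eq_mul, nsmul_eq_mul] at h
    push_cast at h
    linear_combination h
  have hrel2 := rel m
  refine decomp_mem (D1 := D1 m) (D2 := D2 m) (D3 := DH m) (P := P m)
    (k1 := 2 * e * q + f * (1 - 2 * p)) (k2 := g * (2 * p - 1) - 2 * e * r)
    (k3 := g * q - f * r) (c := fun j => D (x m (inr j)))
    (smul_D1_mem m) (smul_D2_mem m) (smul_DH_mem m) (smul_P_mem m) (der_decomp ?_)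
  refine idx_cases m ?_ ?_ ?_ ?_
  · have hs : ∑ j, D (x m (inr j)) * P m j (x m (inl 0)) = 0 :=
      Finset.sum_eq_zero fun j _ => by rw [P_l, mul_zero]
    change D (x m (inl 0)) = _ * D1 m (x m (inl 0)) + _ * D2 m (x m (inl 0))
      + _ * DH m (x m (inl 0)) + ∑ j, D (x m (inr j)) * P m j (x m (inl 0))
    rw [hs, D1_0, D2_0, DH_0, ← hp, ← hq, ← hr, ← he]
    linear_combination (-e) * hrel2 + (1 - 2 * p) * hrel
  · have hs : ∑ j, D (x m (inr j)) * P m j (x m (inl 1)) = 0 :=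
      Finset.sum_eq_zero fun j _ => by rw [P_l, mul_zero]
    change D (x m (inl 1)) = _ * D1 m (x m (inl 1)) + _ * D2 m (x m (inl 1))
      + _ * DH m (x m (inl 1)) + ∑ j, D (x m (inr j)) * P m j (x m (inl 1))
    rw [hs, D1_1, D2_1, DH_1, ← hp, ← hq, ← hf]
    linear_combination (-f) * hrel2 - 2 * q * hrel
  · have hs : ∑ j, D (x m (inr j)) * P m j (x m (inl 2)) = 0 :=
      Finset.sum_eq_zero fun j _ => by rw [P_l, mul_zero]
    change D (x m (inl 2)) = _ * D1 m (x m (inl 2)) + _ * D2 m (x m (inl 2))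
      + _ * DH m (x m (inl 2)) + ∑ j, D (x m (inr j)) * P m j (x m (inl 2))
    rw [hs, D1_2, D2_2, DH_2, ← hp, ← hr, ← hg]
    linear_combination (-g) * hrel2 - 2 * r * hrel
  · intro k
    have hs : ∑ j, D (x m (inr j)) * P m j (x m (inr k)) = D (x m (inr k)) := by
      rw [Finset.sum_eq_single k]
      · rw [P_r, if_pos rfl, mul_one]
      · intro j _ hj
        rw [P_r, if_neg (Ne.symm hj), mul_zero]
      · intro h; exact absurd (Finset.mem_univ k) h
    change D (x m (inr k)) = _ * D1 m (x m (inr k)) + _ * D2 m (x m (inr k))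
      + _ * DH m (x m (inr k)) + ∑ j, D (x m (inr j)) * P m j (x m (inr k))
    rw [hs, D1_r, D2_r, DH_r]
    ring

end AOSDP

section Smooth

variable (m : ℕ)

lemma formallySmooth_A : Algebra.FormallySmooth ℂ (A m) := by
  refine Algebra.FormallySmooth.of_comp_surjective ?_
  intro B _ _ J hJ f
  have hsq : ∀ a b : B, a ∈ J → b ∈ J → a * b = 0 := by
    intro a b ha hb
    have : a * b ∈ J ^ 2 := by
      rw [pow_two]; exact Ideal.mul_mem_mul ha hb
    rw [hJ] at this
    simpa using this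
  have hch : ∀ i : Idx m, ∃ b : B, Ideal.Quotient.mk J b = f (x m i) := fun i =>
    Ideal.Quotient.mk_surjective _
  choose b hb using hch
  set p := b (inl 0) with hp
  set q := b (inl 1) with hq
  set r := b (inl 2) with hr
  set ε := p - p ^ 2 - q * r with hε
  have hεJ : ε ∈ J := by
    rw [← Ideal.Quotient.eq_zero_iff_mem, hε, map_sub, map_sub, map_mul, map_pow, hp, hq, hr,
      hb, hb, hb, ← map_pow, ← map_mul, ← map_sub, ← map_sub, rel', map_zero]
  have hεε : ε * ε = 0 := hsq _ _ hεJ hεJ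
  set b' : Idx m → B := Sum.elim ![p - (1 - 2 * p) * ε, q + 2 * q * ε, r + 2 * r * ε]
    (fun j => b (inr j)) with hb'
  have hF : aeval b' (Fpol m) = 0 := by
    unfold Fpol
    simp only [map_sub, map_mul, map_pow, aeval_X, hb', Sum.elim_inl, Matrix.cons_val_zero,
      Matrix.cons_val_one, Matrix.cons_val]
    have h1 : ε = p - p ^ 2 - q * r := hε
    have h2 : p - (1 - 2 * p) * ε - (p - (1 - 2 * p) * ε) ^ 2 - (q + 2 * q * ε) * (r + 2 * r * ε)
        = (p - p ^ 2 - q * r) - ε * (1 - 4 * (p - p ^ 2 - q * r))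
          - ((1 - 2 * p) ^ 2 + 4 * q * r) * (ε * ε) := by ring
    rw [h2, ← h1, hεε]
    linear_combination 4 * hεε
  have hker : ∀ y ∈ I m, aeval b' y = 0 := by
    intro y hy
    obtain ⟨c, rfl⟩ := Ideal.mem_span_singleton'.1 hy
    rw [map_mul, hF, mul_zero]
  refine ⟨Ideal.Quotient.liftₐ (I m) (aeval b') hker, ?_⟩
  refine Ideal.Quotient.algHom_ext _ (MvPolynomial.algHom_ext ?_)
  have hmk : ∀ y : B, (Ideal.Quotient.mk J) (y * ε) = 0 := fun y =>
    Ideal.Quotient.eq_zero_iff_mem.2 (Ideal.mul_mem_left _ _ hεJ)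
  intro i
  have hl : ((Ideal.Quotient.mkₐ ℂ J).comp (Ideal.Quotient.liftₐ (I m) (aeval b') hker)).comp
      (Ideal.Quotient.mkₐ ℂ (I m)) (X i) = Ideal.Quotient.mk J (b' i) := by
    simp [Ideal.Quotient.liftₐ_apply]
  have hr' : (f.comp (Ideal.Quotient.mkₐ ℂ (I m))) (X i) = f (x m i) := rfl
  rw [hl, hr']
  revert i
  refine idx_cases m ?_ ?_ ?_ ?_
  · intro _ _
    rw [← hb, ← hp, hb']
    simp only [Sum.elim_inl, Matrix.cons_val_zero]
    rw [map_sub, hmk, sub_zero]
  · intro _ _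
    rw [← hb, ← hq, hb']
    simp only [Sum.elim_inl, Matrix.cons_val_one, Matrix.cons_val_zero]
    rw [map_add, hmk, add_zero]
  · intro _ _
    rw [← hb, ← hr, hb']
    simp only [Sum.elim_inl, Matrix.cons_val]
    rw [map_add, hmk, add_zero]
  · intro j _ _
    rw [← hb, hb']
    simp only [Sum.elim_inr]

lemma smooth_A : Algebra.Smooth ℂ (A m) where
  formallySmooth := formallySmooth_A m
  finitePresentation :=
    Algebra.FinitePresentation.quotient ⟨{Fpol m}, by simp⟩

lemma isDomain_A : IsDomain (A m) := Ideal.Quotient.isDomain (I m)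

lemma manifold_Z : IsAffineManifold (Zset m) := by
  refine ⟨⟨{Fpol m}, ?_⟩, ?_, ?_⟩
  · ext y
    simp only [Zset, Set.mem_ofPred_eq, Set.mem_singleton_iff, forall_eq, Fpol, map_sub, map_mul,
      map_pow, eval_X]
    constructor
    · intro h; linear_combination h
    · intro h; linear_combination h
  · have : ∀ J : Ideal (MvPolynomial (Idx m) ℂ), J = I m → IsDomain (MvPolynomial (Idx m) ℂ ⧸ J) := by
      rintro J rfl; exact isDomain_A m
    exact this _ (vanishing_Z m)
  · have : ∀ J : Ideal (MvPolynomial (Idx m) ℂ), J = I m →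
        Algebra.Smooth ℂ (MvPolynomial (Idx m) ℂ ⧸ J) := by
      rintro J rfl; exact smooth_A m
    exact this _ (vanishing_Z m)

lemma aosdp_Z : HasAOSDP (Zset m) := by
  have : ∀ J : Ideal (MvPolynomial (Idx m) ℂ), J = I m →
      overshearLie (MvPolynomial (Idx m) ℂ ⧸ J) = ⊤ := by
    rintro J rfl; exact lie_eq_top m
  exact this _ (vanishing_Z m)

end Smooth

section Final

variable (m : ℕ)

lemma X_sub_Z : Xset m ⊆ Zset m := fun _ hx => hx.1

lemma Y_sub_Z : Yset m ⊆ Zset m := by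
  intro y hy
  obtain ⟨h0, h1, h2, -, -⟩ := hy
  change y (inl 0) * (1 - y (inl 0)) = y (inl 1) * y (inl 2)
  rw [h0, h1, h2]; ring

lemma algebraic_X : IsAlgebraicSet (Xset m) := by
  refine ⟨{Fpol m} ∪ Set.range (fun j : Fin 3 ⊕ Fin m => X (inr j)), ?_⟩
  ext y
  constructor
  · rintro ⟨h1, h2⟩ f hf
    rcases hf with hf | ⟨j, rfl⟩
    · rw [Set.mem_singleton_iff] at hf
      rw [hf]
      simp only [Fpol, map_sub, map_mul, map_pow, eval_X]
      linear_combination h1
    · simp only [eval_X]; exact h2 j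
  · intro h
    have h1 := h (Fpol m) (Or.inl rfl)
    simp only [Fpol, map_sub, map_mul, map_pow, eval_X] at h1
    refine ⟨by linear_combination h1, fun j => ?_⟩
    have := h (X (inr j)) (Or.inr ⟨j, rfl⟩)
    simpa using this

lemma algebraic_Y : IsAlgebraicSet (Yset m) := by
  refine ⟨{X (inl 0) - 1, X (inl 1), X (inl 2),
    X (inr (inl 0)) - X (inr (inl 0)) ^ 2 - X (inr (inl 1)) * X (inr (inl 2))} ∪
      Set.range (fun j : Fin m => X (inr (inr j))), ?_⟩
  ext y
  constructor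
  · rintro ⟨h0, h1, h2, h3, h4⟩ f hf
    rcases hf with (hf | hf | hf | hf) | ⟨j, rfl⟩
    · rw [hf]; simp [h0]
    · rw [hf]; simp [h1]
    · rw [hf]; simp [h2]
    · rw [hf]
      simp only [map_sub, map_mul, map_pow, eval_X]
      linear_combination h3
    · simp only [eval_X]; exact h4 j
  · intro h
    have h0 := h (X (inl 0) - 1) (Or.inl (Or.inl rfl))
    have h1 := h (X (inl 1)) (Or.inl (Or.inr (Or.inl rfl)))
    have h2 := h (X (inl 2)) (Or.inl (Or.inr (Or.inr (Or.inl rfl))))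
    have h3 := h (X (inr (inl 0)) - X (inr (inl 0)) ^ 2 - X (inr (inl 1)) * X (inr (inl 2)))
      (Or.inl (Or.inr (Or.inr (Or.inr rfl))))
    simp only [map_sub, map_mul, map_pow, eval_X, map_one] at h0 h1 h2 h3
    refine ⟨by linear_combination h0, h1, h2, by linear_combination h3, fun j => ?_⟩
    have := h (X (inr (inr j))) (Or.inr ⟨j, rfl⟩)
    simpa using this

/-- the map `(a, 0, 0) ↦ ((1,0,0), a, 0)` -/
def fwd (x : Idx m → ℂ) : Idx m → ℂ :=
  Sum.elim ![1, 0, 0] (Sum.elim (fun i => x (inl i)) (fun _ => 0))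

/-- the map `((1,0,0), a, 0) ↦ (a, 0, 0)` -/
def bwd (y : Idx m → ℂ) : Idx m → ℂ :=
  Sum.elim (fun i => y (inr (inl i))) (fun _ => 0)

lemma fwd_mem {x : Idx m → ℂ} (hx : x ∈ Xset m) : fwd m x ∈ Yset m :=
  ⟨rfl, rfl, rfl, hx.1, fun _ => rfl⟩

lemma bwd_mem {y : Idx m → ℂ} (hy : y ∈ Yset m) : bwd m y ∈ Xset m :=
  ⟨hy.2.2.2.1, fun _ => rfl⟩

lemma bwd_fwd {x : Idx m → ℂ} (hx : x ∈ Xset m) : bwd m (fwd m x) = x := by
  funext i
  rcases i with i | j
  · rfl
  · exact (hx.2 j).symm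

lemma fwd_bwd {y : Idx m → ℂ} (hy : y ∈ Yset m) : fwd m (bwd m y) = y := by
  obtain ⟨h0, h1, h2, h3, h4⟩ := hy
  funext i
  revert i
  refine idx_cases m ?_ ?_ ?_ ?_
  · exact h0.symm
  · exact h1.symm
  · exact h2.symm
  · rintro (j | k)
    · rfl
    · exact (h4 k).symm

/-- the isomorphism `X → Y` -/
def phi : Xset m ≃ Yset m where
  toFun x := ⟨fwd m x, fwd_mem m x.2⟩
  invFun y := ⟨bwd m y, bwd_mem m y.2⟩
  left_inv x := Subtype.ext (bwd_fwd m x.2)
  right_inv y := Subtype.ext (fwd_bwd m y.2)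

lemma phi_alg : IsAlgebraicIso (phi m) := by
  constructor
  · refine ⟨Sum.elim ![1, 0, 0] (Sum.elim (fun i => X (inl i)) (fun _ => 0)), ?_⟩
    intro x i
    change fwd m x i = _
    revert i
    refine idx_cases m ?_ ?_ ?_ ?_
    · simp [fwd]
    · simp [fwd]
    · simp [fwd]
    · rintro (j | k)
      · simp [fwd]
      · simp [fwd]
  · refine ⟨Sum.elim (fun i => X (inr (inl i))) (fun _ => 0), ?_⟩
    intro y i
    change bwd m y i = _
    rcases i with i | j
    · simp [bwd]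
    · simp [bwd]

/-- the slice `{(1,0,0)} × ℂ³ × {0}` of `Z` -/
def slice (v : Fin 3 → ℂ) : Zset m :=
  ⟨Sum.elim ![1, 0, 0] (Sum.elim v (fun _ => 0)), by
    change (1 : ℂ) * (1 - 1) = 0 * 0
    ring⟩

lemma continuous_slice : Continuous (slice m) := by
  refine Continuous.subtype_mk ?_ _
  refine continuous_pi ?_
  refine idx_cases m ?_ ?_ ?_ ?_
  · exact continuous_const
  · exact continuous_const
  · exact continuous_const
  · rintro (j | k)
    · exact continuous_apply j
    · exact continuous_const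

theorem no_homeo (Φ : Zset m ≃ₜ Zset m) : ¬ Extends Φ (phi m) := by
  intro hE
  set F : (Fin 3 → ℂ) → (Fin 3 → ℂ) := fun v i =>
    ((Φ.symm (slice m v) : Zset m) : Idx m → ℂ) (inl i) with hF
  refine no_retraction (F := F) ?_ ?_ ?_
  · refine continuous_pi fun i => ?_
    exact (continuous_apply (inl i)).comp
      (continuous_subtype_val.comp (Φ.symm.continuous.comp (continuous_slice m)))
  · intro v
    exact (Φ.symm (slice m v)).2
  · intro v hv
    set a : Idx m → ℂ := Sum.elim v (fun _ => 0) with ha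
    have haX : a ∈ Xset m := ⟨hv, fun _ => rfl⟩
    have h1 := hE ⟨a, haX⟩ ⟨a, X_sub_Z m haX⟩ rfl
    have h2 : Φ ⟨a, X_sub_Z m haX⟩ = slice m v := by
      apply Subtype.ext
      rw [h1]
      rfl
    have h3 : Φ.symm (slice m v) = ⟨a, X_sub_Z m haX⟩ := by
      rw [← h2, Homeomorph.symm_apply_apply]
    funext i
    simp only [hF, h3]
    rfl

theorem no_hol (Φ : Zset m ≃ Zset m) (h : IsHolomorphicAut Φ) : ¬ Extends Φ (phi m) := by
  have h1 : Continuous Φ := Continuous.subtype_mk h.1.continuous _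
  have h2 : Continuous Φ.symm := Continuous.subtype_mk h.2.continuous _
  exact no_homeo m ⟨Φ, h1, h2⟩

/-- Main result. For every `m` the affine-algebraic manifold `Z = Q × ℂ^(3+m)` has the algebraic
overshear density property, but the algebraic isomorphism `(a, 0, 0) ↦ ((1,0,0), a, 0)` between
its subvarieties `X = Q × {0}` and `Y = {(1,0,0)} × Q × {0}` does not extend to a holomorphic
automorphism (not even to a homeomorphism) of `Z`. -/
theorem result (m : ℕ) :
    IsAffineManifold (Zset m) ∧ HasAOSDP (Zset m) ∧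
      IsSubvariety (Xset m) (Zset m) ∧ IsSubvariety (Yset m) (Zset m) ∧
      ∃ φ : Xset m ≃ Yset m, IsAlgebraicIso φ ∧
        (∀ Φ : Zset m ≃ Zset m, IsHolomorphicAut Φ → ¬ Extends Φ φ) ∧
        (∀ Φ : Zset m ≃ₜ Zset m, ¬ Extends Φ φ) :=
  ⟨manifold_Z m, aosdp_Z m, ⟨algebraic_X m, X_sub_Z m⟩, ⟨algebraic_Y m, Y_sub_Z m⟩,
    phi m, phi_alg m, no_hol m, no_homeo m⟩

end Final

end Pool.Agent.Results.MP_563419_an.HighCodimension
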