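import Mathlib
import Pool.Agent.Lib.MP_563419_an.Defs
import Pool.Agent.Lib.MP_563419_an.Ins.Spaces
import Pool.Agent.Lib.MP_563419_an.Ins.NoExt
import Pool.Agent.Lib.MP_563419_an.Ins.Ext

set_option autoImplicit false

open Sum Pool.Agent.Lib.MP_563419_an Pool.Agent.Lib.MP_563419_an.Iso

namespace Pool.Agent.Results.MP_563419_an.IsotopicSurface

/-- Main result. For every `k ≥ 0` let `Z = Q × ℂ^(k+4)`, `Q = {p (1 - p) = q r}`, with coordinates
`(p, q, r; x, y; z_0, ..., z_(k+1))`, and let `S` be the surface in `Z` given by `p = 0` and by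
`a b = 0`, `a (x y - 1) = 0` for all different coordinates `a`, `b` among `q`, `r`, `z_j`.

`Z` is an affine-algebraic manifold with the algebraic overshear density property, `S` is a
subvariety, `(p, q, r; x, y; z_0, z_1, ...) ↦ (p, q, r; x, y; x² z_0, z_1, ...)` is an algebraic
automorphism `ψ` of `S`, there is a real-analytic isotopy `H t` of `Z` from the identity to an
extension of `ψ`, but no holomorphic automorphism of `Z` extends `ψ`. -/
theorem result (k : ℕ) :
    IsAffineManifold (Zset k) ∧ HasAOSDP (Zset k) ∧ IsSubvariety (Sset k) (Zset k) ∧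
      ∃ ψ : Sset k ≃ Sset k, IsAlgebraicIso ψ ∧
        (∀ (u : Sset k) (i : Idx k), (ψ u : Idx k → ℂ) i =
          if i = inr (inr 0) then (u : Idx k → ℂ) (inr (inl 0)) ^ 2 * (u : Idx k → ℂ) i
          else (u : Idx k → ℂ) i) ∧
        (∃ H : ℝ → Zset k ≃ Zset k, IsAnalyticIsotopy H ∧ H 0 = Equiv.refl (Zset k) ∧
          Extends (H 1) ψ) ∧
        ∀ Φ : Zset k ≃ Zset k, IsHolomorphicAut Φ → ¬ Extends Φ ψ :=
  ⟨manifold_Z k, aosdp_Z k, ⟨algebraic_S k, S_sub_Z k⟩, psi k, psi_alg k,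
    fun _ _ => rfl, ⟨HH k, HH_isotopy k, HH_zero k, HH_psi k⟩, no_ext_S⟩

end Pool.Agent.Results.MP_563419_an.IsotopicSurface
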