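import Mathlib
import Pool.Agent.Lib.MP_563419_an.Defs
import Pool.Agent.Lib.MP_563419_an.NoRetraction
import Pool.Agent.Lib.MP_563419_an.Jacobian

set_option autoImplicit false

open MvPolynomial Sum Pool.Agent.Lib.MP_563419_an

namespace Pool.Agent.Results.MP_563419_an.SmoothHypersurface

/-- Index set of the coordinates `(x, y; z_0, ..., z_k)` of `ℂ^(k+3)`. -/
abbrev Idx (k : ℕ) : Type := Fin 2 ⊕ Fin (k + 1)

/-- The hypersurface `X = {x y = 1}` of `ℂ^(k+3)`. -/
def Xset (k : ℕ) : Set (Idx k → ℂ) := {p | p (inl 0) * p (inl 1) = 1}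

section Affine

variable (k : ℕ)

private lemma vanishing_univ : vanishingIdeal ℂ (Set.univ : Set (Idx k → ℂ)) = ⊥ := by
  have : (Set.univ : Set (Idx k → ℂ)) = zeroLocus ℂ (⊥ : Ideal (MvPolynomial (Idx k) ℂ)) := by
    rw [zeroLocus_bot]; rfl
  rw [this]
  exact MvPolynomial.IsPrime.vanishingIdeal_zeroLocus _

private lemma preserves_bot (D : Derivation ℂ (MvPolynomial (Idx k) ℂ) (MvPolynomial (Idx k) ℂ)) :
    ∀ x ∈ (⊥ : Ideal (MvPolynomial (Idx k) ℂ)), D x ∈ (⊥ : Ideal (MvPolynomial (Idx k) ℂ)) := by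
  intro x hx
  rw [Ideal.mem_bot] at hx
  rw [hx, map_zero]
  exact Ideal.zero_mem _

private abbrev A : Type := MvPolynomial (Idx k) ℂ ⧸ (⊥ : Ideal (MvPolynomial (Idx k) ℂ))

private noncomputable def P (j : Idx k) : Derivation ℂ (A k) (A k) :=
  descend ⊥ (pderiv j) (preserves_bot k _)

private noncomputable abbrev xx (i : Idx k) : A k :=
  Ideal.Quotient.mk (⊥ : Ideal (MvPolynomial (Idx k) ℂ)) (X i)

private lemma P_x (j i : Idx k) : P k j (xx k i) = if i = j then 1 else 0 := by
  simp only [P, xx, descend_mk]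
  rw [pderiv_X, Pi.single_apply]
  by_cases h : i = j
  · subst h; simp
  · simp [h]

private lemma lnd_P (j) : IsLND (P k j) := by
  refine isLND_of_gen fun i => ⟨2, ?_⟩
  change P k j (P k j (xx k i)) = 0
  rw [P_x]
  split_ifs
  · exact Derivation.map_one_eq_zero _
  · exact map_zero _

private lemma smul_P_mem (j) (g : A k) : g • P k j ∈ overshearLie (A k) := by
  obtain ⟨i, hi⟩ : ∃ i : Idx k, i ≠ j := by
    by_cases h : j = inl 0
    · exact ⟨inl 1, by rw [h]; simp⟩
    · exact ⟨inl 0, fun h' => h h'.symm⟩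
  refine smul_mem_of_pderiv i (preserves_bot k _) (lnd_P k j) ?_ g
  change P k j (xx k i) = 0
  rw [P_x, if_neg hi]

private theorem lie_eq_top : overshearLie (A k) = ⊤ := by
  rw [eq_top_iff]
  intro D _
  refine decomp_mem (D1 := P k (inl 0)) (D2 := P k (inl 0)) (D3 := P k (inl 0)) (P := P k)
    (k1 := 0) (k2 := 0) (k3 := 0) (c := fun j => D (xx k j))
    (smul_P_mem k _) (smul_P_mem k _) (smul_P_mem k _) (smul_P_mem k) (der_decomp ?_)
  intro i
  have hs : ∑ j, D (xx k j) * P k j (xx k i) = D (xx k i) := by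
    rw [Finset.sum_eq_single i]
    · rw [P_x, if_pos rfl, mul_one]
    · intro j _ hj
      rw [P_x, if_neg (Ne.symm hj), mul_zero]
    · intro h; exact absurd (Finset.mem_univ i) h
  change D (xx k i) = 0 * P k (inl 0) (xx k i) + 0 * P k (inl 0) (xx k i)
    + 0 * P k (inl 0) (xx k i) + ∑ j, D (xx k j) * P k j (xx k i)
  rw [hs]
  ring

private lemma manifold_univ : IsAffineManifold (Set.univ : Set (Idx k → ℂ)) := by
  refine ⟨⟨∅, by simp⟩, ?_, ?_⟩
  · have : ∀ J : Ideal (MvPolynomial (Idx k) ℂ), J = ⊥ → IsDomain (MvPolynomial (Idx k) ℂ ⧸ J) := by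
      rintro J rfl
      exact Ideal.Quotient.isDomain ⊥
    exact this _ (vanishing_univ k)
  · have : ∀ J : Ideal (MvPolynomial (Idx k) ℂ), J = ⊥ →
        Algebra.Smooth ℂ (MvPolynomial (Idx k) ℂ ⧸ J) := by
      rintro J rfl
      have h : Algebra.Smooth ℂ (MvPolynomial (Idx k) ℂ) := ⟨inferInstance, inferInstance⟩
      exact Algebra.Smooth.of_equiv (AlgEquiv.quotientBot ℂ (MvPolynomial (Idx k) ℂ)).symm
    exact this _ (vanishing_univ k)

private lemma aosdp_univ : HasAOSDP (Set.univ : Set (Idx k → ℂ)) := by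
  have : ∀ J : Ideal (MvPolynomial (Idx k) ℂ), J = ⊥ →
      overshearLie (MvPolynomial (Idx k) ℂ ⧸ J) = ⊤ := by
    rintro J rfl; exact lie_eq_top k
  exact this _ (vanishing_univ k)

end Affine

section Hypersurface

variable (k : ℕ)

private lemma algebraic_X : IsAlgebraicSet (Xset k) := by
  refine ⟨{X (inl 0) * X (inl 1) - 1}, ?_⟩
  ext p
  simp only [Xset, Set.mem_singleton_iff, forall_eq, map_sub, map_mul, eval_X, map_one,
    sub_eq_zero]

/-- the ring `ℂ[x, z]` -/
private abbrev R : Type := MvPolynomial (Option (Fin (k + 1))) ℂ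

/-- the ring `ℂ[x, 1/x, z]` -/
private abbrev L : Type := Localization.Away (X none : R k)

private noncomputable def psiVal (i : Idx k) : L k :=
  Sum.elim ![algebraMap (R k) (L k) (X none), IsLocalization.Away.invSelf (X none : R k)]
    (fun j => algebraMap (R k) (L k) (X (some j))) i

private noncomputable def psi : MvPolynomial (Idx k) ℂ →ₐ[ℂ] L k := aeval (psiVal k)

private lemma x_ne : (X none : R k) ≠ 0 := X_ne_zero _

private lemma psi_surj : Function.Surjective (psi k) := by
  have h1 : ∀ r : R k, algebraMap (R k) (L k) r ∈ (psi k).range := by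
    intro r
    induction r using MvPolynomial.induction_on with
    | C a =>
      have : algebraMap (R k) (L k) (C a) = algebraMap ℂ (L k) a := by
        rw [IsScalarTower.algebraMap_apply ℂ (R k) (L k)]
        rfl
      rw [this]
      exact Subalgebra.algebraMap_mem _ a
    | add p q hp hq => rw [map_add]; exact Subalgebra.add_mem _ hp hq
    | mul_X p i hp =>
      rw [map_mul]
      refine Subalgebra.mul_mem _ hp ?_
      cases i with
      | none => exact ⟨X (inl 0), by simp [psi, psiVal]⟩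
      | some j => exact ⟨X (inr j), by simp [psi, psiVal]⟩
  have h2 : (IsLocalization.Away.invSelf (X none : R k) : L k) ∈ (psi k).range :=
    ⟨X (inl 1), by simp [psi, psiVal]⟩
  intro a
  obtain ⟨n, r, hr⟩ := IsLocalization.Away.surj (X none : R k) a
  have h3 : a = algebraMap (R k) (L k) r * (IsLocalization.Away.invSelf (X none : R k)) ^ n := by
    rw [← hr, mul_assoc, ← mul_pow, IsLocalization.Away.mul_invSelf, one_pow, mul_one]
  rw [h3]
  exact Subalgebra.mul_mem _ (h1 r) (Subalgebra.pow_mem _ h2 n)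

private noncomputable def pt0 (p : Idx k → ℂ) : Option (Fin (k + 1)) → ℂ
  | none => p (inl 0)
  | some j => p (inr j)

private lemma isUnit_ev {p : Idx k → ℂ} (hp : p ∈ Xset k) :
    IsUnit ((eval (pt0 k p) : R k →+* ℂ) (X none)) := by
  rw [eval_X]
  have h : p (inl 0) * p (inl 1) = 1 := hp
  exact IsUnit.of_mul_eq_one _ h

private lemma lift_psi {p : Idx k → ℂ} (hp : p ∈ Xset k) (f : MvPolynomial (Idx k) ℂ) :
    IsLocalization.Away.lift (X none : R k) (isUnit_ev k hp) (psi k f) = eval p f := by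
  have h : p (inl 0) * p (inl 1) = 1 := hp
  have key : (IsLocalization.Away.lift (X none : R k) (isUnit_ev k hp) : L k →+* ℂ).comp
      (psi k).toRingHom = eval p := by
    apply MvPolynomial.ringHom_ext
    · intro a
      have : (psi k).toRingHom (C a) = algebraMap (R k) (L k) (C a) := by
        show psi k (C a) = _
        rw [psi, aeval_C, IsScalarTower.algebraMap_apply ℂ (R k) (L k)]
        rfl
      rw [RingHom.comp_apply, this, IsLocalization.Away.lift_eq, eval_C, eval_C]
    · intro i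
      rw [RingHom.comp_apply, eval_X]
      have : (psi k).toRingHom (X i) = psiVal k i := by
        show psi k (X i) = _
        rw [psi, aeval_X]
      rw [this]
      rcases i with i | j
      · fin_cases i
        · show IsLocalization.Away.lift (X none : R k) (isUnit_ev k hp)
            (algebraMap (R k) (L k) (X none)) = _
          rw [IsLocalization.Away.lift_eq, eval_X]
          rfl
        · show IsLocalization.Away.lift (X none : R k) (isUnit_ev k hp)
            (IsLocalization.Away.invSelf (X none : R k) : L k) = p (inl 1)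
          have h1 : IsLocalization.Away.lift (X none : R k) (isUnit_ev k hp)
              (algebraMap (R k) (L k) (X none)) = p (inl 0) := by
            rw [IsLocalization.Away.lift_eq, eval_X]
            rfl
          have h2 := congrArg (IsLocalization.Away.lift (X none : R k) (isUnit_ev k hp))
            (IsLocalization.Away.mul_invSelf (S := L k) (X none : R k))
          rw [map_mul, h1, map_one] at h2
          have h3 : p (inl 0) ≠ 0 := left_ne_zero_of_mul_eq_one h
          exact mul_left_cancel₀ h3 (h2.trans h.symm)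
      · show IsLocalization.Away.lift (X none : R k) (isUnit_ev k hp)
            (algebraMap (R k) (L k) (X (some j))) = _
        rw [IsLocalization.Away.lift_eq, eval_X]
        rfl
  exact congrArg (fun g : MvPolynomial (Idx k) ℂ →+* ℂ => g f) key

private lemma aeval_eq (p : Idx k → ℂ) (f : MvPolynomial (Idx k) ℂ) :
    (aeval p : MvPolynomial (Idx k) ℂ →ₐ[ℂ] ℂ) f = eval p f := by
  rw [← MvPolynomial.coe_aeval_eq_eval]
  rfl

private lemma ker_psi : RingHom.ker (psi k) = vanishingIdeal ℂ (Xset k) := by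
  ext f
  rw [RingHom.mem_ker, mem_vanishingIdeal_iff]
  constructor
  · intro hf p hp
    have := lift_psi k hp f
    rw [hf, map_zero] at this
    rw [aeval_eq, ← this]
  · intro hf
    obtain ⟨n, r, hr⟩ := IsLocalization.Away.surj (X none : R k) (psi k f)
    have h1 : X none * r = 0 := by
      apply MvPolynomial.funext
      intro q
      rw [map_mul, eval_X, map_zero]
      by_cases hq : q none = 0
      · rw [hq, zero_mul]
      · set p : Idx k → ℂ := Sum.elim ![q none, (q none)⁻¹] (fun j => q (some j)) with hpd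
        have hp : p ∈ Xset k := by
          show q none * (q none)⁻¹ = 1
          exact mul_inv_cancel₀ hq
        have hpq : pt0 k p = q := by
          funext i
          cases i with
          | none => rfl
          | some j => rfl
        have h2 := congrArg (IsLocalization.Away.lift (X none : R k) (isUnit_ev k hp)) hr
        rw [map_mul, lift_psi k hp f, IsLocalization.Away.lift_eq] at h2
        have h3 : eval p f = 0 := by
          rw [← aeval_eq]
          exact hf p hp
        rw [h3, zero_mul, hpq] at h2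
        rw [← h2, mul_zero]
    have h2 : r = 0 := (mul_eq_zero.1 h1).resolve_left (x_ne k)
    rw [h2, map_zero] at hr
    have h3 : IsUnit (algebraMap (R k) (L k) (X none) ^ n) :=
      (IsLocalization.Away.algebraMap_isUnit (X none : R k)).pow n
    exact (h3.mul_left_eq_zero).1 hr

private lemma manifold_X : IsAffineManifold (Xset k) := by
  have e : CoordRing (Xset k) ≃ₐ[ℂ] L k := by
    have e1 := Ideal.quotientKerAlgEquivOfSurjective (psi_surj k)
    have e2 : CoordRing (Xset k) ≃ₐ[ℂ] (MvPolynomial (Idx k) ℂ ⧸ RingHom.ker (psi k)) :=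
      Ideal.quotientEquivAlgOfEq ℂ (ker_psi k).symm
    exact e2.trans e1
  have hd : IsDomain (L k) :=
    IsLocalization.isDomain_localization (powers_le_nonZeroDivisors_of_noZeroDivisors (x_ne k))
  refine ⟨algebraic_X k, e.toMulEquiv.isDomain (L k), ?_⟩
  have h1 : Algebra.Smooth ℂ (R k) := ⟨inferInstance, inferInstance⟩
  have h2 : Algebra.Smooth (R k) (L k) := Algebra.Smooth.of_isLocalization_Away (X none : R k)
  have h3 : Algebra.Smooth ℂ (L k) := Algebra.Smooth.comp ℂ (R k) (L k)
  exact Algebra.Smooth.of_equiv e.symm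

end Hypersurface

section Analytic

/-- a nowhere zero continuous function on `ℂ` is not `ζ^(-m)` on the unit circle -/
private lemma no_winding_pow {g : ℂ → ℂ} (hg : Continuous g) (h0 : ∀ z, g z ≠ 0) {m : ℕ}
    (hm : 1 ≤ m) (hc : ∀ ζ : ℂ, ‖ζ‖ = 1 → ζ ^ m * g ζ = 1) : False := by
  obtain ⟨f, hf, hfg⟩ := exists_log g hg h0 0
  set ζ : ℝ → ℂ := fun θ => Complex.exp (θ * Complex.I) with hζ
  have hζc : Continuous ζ := by rw [hζ]; fun_prop
  have hζn : ∀ θ, ‖ζ θ‖ = 1 := fun θ => Complex.norm_exp_ofReal_mul_I θ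
  set k : ℝ → ℝ := fun θ => m * θ + (f (ζ θ)).im with hk
  have hkc : Continuous k := by rw [hk]; fun_prop
  have hcos : ∀ θ, 0 < Real.cos (k θ) := by
    intro θ
    have h1 := hc (ζ θ) (hζn θ)
    rw [← hfg] at h1
    have h2 : ζ θ ^ m * Complex.exp (f (ζ θ))
        = (Real.exp (f (ζ θ)).re : ℂ) * Complex.exp ((k θ : ℝ) * Complex.I) := by
      have h3 : f (ζ θ) = ((f (ζ θ)).re : ℂ) + ((f (ζ θ)).im : ℂ) * Complex.I :=
        (Complex.re_add_im _).symm
      have h4 : ζ θ ^ m = Complex.exp ((m : ℂ) * ((θ : ℂ) * Complex.I)) := by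
        simp only [hζ]
        rw [← Complex.exp_nat_mul]
      rw [h4, Complex.ofReal_exp, ← Complex.exp_add, ← Complex.exp_add]
      congr 1
      conv_lhs => rw [h3]
      simp only [hk]
      push_cast
      ring
    rw [h2] at h1
    have h3 := congrArg Complex.re h1
    rw [Complex.re_ofReal_mul, Complex.exp_ofReal_mul_I_re, Complex.one_re] at h3
    by_contra hneg
    push Not at hneg
    have h4 : 0 < Real.exp (f (ζ θ)).re := Real.exp_pos _
    nlinarith
  have hper : k (2 * Real.pi) = k 0 + m * (2 * Real.pi) := by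
    have : ζ (2 * Real.pi) = ζ 0 := by
      simp only [hζ]
      push_cast
      rw [Complex.exp_two_pi_mul_I]
      simp
    simp only [hk, this]
    ring
  have hpi := Real.pi_pos
  have hm1 : (1 : ℝ) ≤ m := by exact_mod_cast hm
  have hmem : k 0 + Real.pi ∈ Set.Icc (k 0) (k (2 * Real.pi)) := by
    rw [hper]; constructor <;> nlinarith
  obtain ⟨θ, -, hθ⟩ := intermediate_value_Icc (by positivity : (0 : ℝ) ≤ 2 * Real.pi)
    hkc.continuousOn hmem
  have h1 := hcos θ
  rw [hθ, Real.cos_add_pi] at h1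
  have h2 := hcos 0
  linarith

variable (k : ℕ)

/-- the point `(x, y; 0)` -/
private noncomputable def pt (x y : ℂ) : Idx k → ℂ := Sum.elim ![x, y] (fun _ => 0)

private lemma pt_0 (x y : ℂ) : pt k x y (inl 0) = x := rfl

private lemma pt_1 (x y : ℂ) : pt k x y (inl 1) = y := rfl

private lemma pt_r (x y : ℂ) (j : Fin (k + 1)) : pt k x y (inr j) = 0 := rfl

private lemma continuous_pt {T : Type} [TopologicalSpace T] {u v : T → ℂ} (hu : Continuous u)
    (hv : Continuous v) : Continuous fun t => pt k (u t) (v t) := by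
  refine continuous_pi ?_
  rintro (i | j)
  · fin_cases i
    · exact hu
    · exact hv
  · exact continuous_const

private lemma hasDerivAt_pt {u v : ℂ → ℂ} {u' v' a : ℂ} (hu : HasDerivAt u u' a)
    (hv : HasDerivAt v v' a) : HasDerivAt (fun t => pt k (u t) (v t)) (pt k u' v') a := by
  rw [hasDerivAt_pi]
  rintro (i | j)
  · fin_cases i
    · exact hu
    · exact hv
  · exact hasDerivAt_const a (0 : ℂ)

/-- `(x, y; z_0, z_1, ...) ↦ (x, y; a z_0, z_1, ...)` -/
private def scale (a : ℂ) (p : Idx k → ℂ) : Idx k → ℂ :=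
  fun i => if i = inr 0 then a * p i else p i

private lemma scale_l (a : ℂ) (p : Idx k → ℂ) (i : Fin 2) : scale k a p (inl i) = p (inl i) := by
  simp [scale]

private lemma scale_0 (a : ℂ) (p : Idx k → ℂ) : scale k a p (inr 0) = a * p (inr 0) := by
  simp [scale]

private lemma scale_r (a : ℂ) (p : Idx k → ℂ) {i : Fin (k + 1)} (h : i ≠ 0) :
    scale k a p (inr i) = p (inr i) := by
  simp [scale, h]

private lemma scale_mem (a : ℂ) {p : Idx k → ℂ} (hp : p ∈ Xset k) : scale k a p ∈ Xset k := by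
  have h : p (inl 0) * p (inl 1) = 1 := hp
  show scale k a p (inl 0) * scale k a p (inl 1) = 1
  rw [scale_l, scale_l, h]

private lemma scale_scale {a b : ℂ} (h : a * b = 1) (p : Idx k → ℂ) :
    scale k a (scale k b p) = p := by
  funext i
  by_cases hi : i = inr 0
  · subst hi
    rw [scale_0, scale_0, ← mul_assoc, h, one_mul]
  · simp [scale, hi]

private lemma scale_pt (a x y : ℂ) : scale k a (pt k x y) = pt k x y := by
  funext i
  by_cases hi : i = inr 0
  · subst hi
    rw [scale_0, pt_r, mul_zero]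
  · simp [scale, hi]

/-- the automorphism of `X` given by `(x, y; z_0, z_1, ...) ↦ (x, y; x^m z_0, z_1, ...)` -/
private def phi (m : ℕ) : Xset k ≃ Xset k where
  toFun p := ⟨scale k ((p : Idx k → ℂ) (inl 0) ^ m) p, scale_mem k _ p.2⟩
  invFun p := ⟨scale k ((p : Idx k → ℂ) (inl 1) ^ m) p, scale_mem k _ p.2⟩
  left_inv p := by
    apply Subtype.ext
    have h : (p : Idx k → ℂ) (inl 0) * (p : Idx k → ℂ) (inl 1) = 1 := p.2
    simp only [scale_l]
    refine scale_scale k ?_ _
    rw [← mul_pow, mul_comm, h, one_pow]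
  right_inv p := by
    apply Subtype.ext
    have h : (p : Idx k → ℂ) (inl 0) * (p : Idx k → ℂ) (inl 1) = 1 := p.2
    simp only [scale_l]
    refine scale_scale k ?_ _
    rw [← mul_pow, h, one_pow]

private lemma phi_alg (m : ℕ) : IsAlgebraicIso (phi k m) := by
  constructor
  · refine ⟨fun i => if i = inr 0 then X (inl 0) ^ m * X i else X i, ?_⟩
    intro p i
    change scale k ((p : Idx k → ℂ) (inl 0) ^ m) p i = _
    by_cases h : i = inr 0 <;> simp [scale, h]
  · refine ⟨fun i => if i = inr 0 then X (inl 1) ^ m * X i else X i, ?_⟩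
    intro p i
    change scale k ((p : Idx k → ℂ) (inl 1) ^ m) p i = _
    by_cases h : i = inr 0 <;> simp [scale, h]

private lemma differentiable_of_hol {Φ : ↥(Set.univ : Set (Idx k → ℂ)) → (Idx k → ℂ)}
    (h : IsHolomorphicMap Φ) : Differentiable ℂ (fun p => Φ ⟨p, Set.mem_univ p⟩) := by
  intro p
  obtain ⟨U, hU, hp, F, hF, hΦ⟩ := h ⟨p, Set.mem_univ p⟩
  refine (hF.differentiableAt (hU.mem_nhds hp)).congr_of_eventuallyEq ?_
  filter_upwards [hU.mem_nhds hp] with q hq
  exact hΦ ⟨q, Set.mem_univ q⟩ hq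

/-- the conjugate -/
private noncomputable abbrev cj (ζ : ℂ) : ℂ := (starRingEnd ℂ) ζ

/-- the derivative in direction `x` of `f_x f_y` -/
private noncomputable def DD (f : (Idx k → ℂ) → (Idx k → ℂ)) (q : Idx k → ℂ) : ℂ :=
  (fderiv ℂ f q (Pi.single (inl 0) 1)) (inl 0) * f q (inl 1) +
    f q (inl 0) * (fderiv ℂ f q (Pi.single (inl 0) 1)) (inl 1)

private lemma DD_continuous {f : (Idx k → ℂ) → (Idx k → ℂ)} (hf : Differentiable ℂ f) :
    Continuous (DD k f) := by
  unfold DD
  refine Continuous.add (Continuous.mul (continuous_partial hf _ _) ?_)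
    (Continuous.mul ?_ (continuous_partial hf _ _))
  · exact (continuous_apply _).comp hf.continuous
  · exact (continuous_apply _).comp hf.continuous

/-- the value of `f_x f_y - 1` -/
private noncomputable def PP (f : (Idx k → ℂ) → (Idx k → ℂ)) (q : Idx k → ℂ) : ℂ :=
  f q (inl 0) * f q (inl 1) - 1

private lemma PP_hasDerivAt {f : (Idx k → ℂ) → (Idx k → ℂ)} (hf : Differentiable ℂ f)
    (a b y : ℂ) (t : ℝ) :
    HasDerivAt (fun t : ℝ => PP k f (pt k (a + t * (b - a)) y))
      (DD k f (pt k (a + t * (b - a)) y) * (b - a)) t := by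
  have h1 : HasDerivAt (fun s : ℂ => pt k (a + s * (b - a)) y) (pt k (b - a) 0) (t : ℂ) := by
    apply hasDerivAt_pt
    · have := ((hasDerivAt_id (t : ℂ)).mul_const (b - a)).const_add a
      simpa using this
    · exact hasDerivAt_const _ _
  have h2 := (hf (pt k (a + (t : ℂ) * (b - a)) y)).hasFDerivAt.comp_hasDerivAt (t : ℂ) h1
  have h3 : pt k (b - a) 0 = (b - a) • (Pi.single (inl 0) 1 : Idx k → ℂ) := by
    funext i
    rcases i with i | j
    · fin_cases i
      · simp [pt]
      · simp [pt]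
    · simp [pt]
  rw [h3, map_smul] at h2
  have h4 := hasDerivAt_pi.1 h2 (inl 0)
  have h5 := hasDerivAt_pi.1 h2 (inl 1)
  have h6 := (h4.mul h5).sub_const 1
  have h7 := h6.comp_ofReal
  refine h7.congr_deriv ?_
  simp only [DD, Function.comp, Pi.smul_apply, smul_eq_mul]
  ring

/-- the integral formula for `(f_x f_y - 1) / (x y - 1)` at `(ζ̄, ζ; 0)` -/
private noncomputable def gI (f : (Idx k → ℂ) → (Idx k → ℂ)) (ζ : ℂ) : ℂ :=
  ζ⁻¹ * ∫ t in (0 : ℝ)..1, DD k f (pt k (ζ⁻¹ + t * (cj ζ - ζ⁻¹)) ζ)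

private noncomputable def hh (f : (Idx k → ℂ) → (Idx k → ℂ)) (ζ : ℂ) : ℂ :=
  if ‖ζ‖ < 1 then PP k f (pt k (cj ζ) ζ) / (cj ζ * ζ - 1) else gI k f ζ

private lemma h1_eq {f : (Idx k → ℂ) → (Idx k → ℂ)} (hf : Differentiable ℂ f)
    (h0 : ∀ p ∈ Xset k, PP k f p = 0) {ζ : ℂ} (hζ : ζ ≠ 0) :
    (cj ζ * ζ - 1) * gI k f ζ = PP k f (pt k (cj ζ) ζ) := by
  have hc : Continuous fun t : ℝ => DD k f (pt k (ζ⁻¹ + t * (cj ζ - ζ⁻¹)) ζ) * (cj ζ - ζ⁻¹) := by
    refine Continuous.mul ((DD_continuous k hf).comp (continuous_pt k ?_ continuous_const))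
      continuous_const
    fun_prop
  have h2 := intervalIntegral.integral_eq_sub_of_hasDerivAt (a := 0) (b := 1)
    (fun t _ => PP_hasDerivAt k hf ζ⁻¹ (cj ζ) ζ t) (hc.intervalIntegrable 0 1)
  rw [intervalIntegral.integral_mul_const] at h2
  have h3 : pt k (ζ⁻¹ + ((1 : ℝ) : ℂ) * (cj ζ - ζ⁻¹)) ζ = pt k (cj ζ) ζ := by
    congr 1
    push_cast
    ring
  have h4 : pt k (ζ⁻¹ + ((0 : ℝ) : ℂ) * (cj ζ - ζ⁻¹)) ζ = pt k ζ⁻¹ ζ := by
    congr 1
    push_cast
    ring
  have h5 : PP k f (pt k ζ⁻¹ ζ) = 0 := by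
    apply h0
    show ζ⁻¹ * ζ = 1
    exact inv_mul_cancel₀ hζ
  rw [h3, h4, h5, sub_zero] at h2
  rw [← h2]
  unfold gI
  field_simp

private lemma h1_circle {f : (Idx k → ℂ) → (Idx k → ℂ)} {ζ : ℂ} (hζ : cj ζ * ζ = 1) :
    gI k f ζ = cj ζ * DD k f (pt k (cj ζ) ζ) := by
  have hz : ζ ≠ 0 := right_ne_zero_of_mul_eq_one hζ
  have h2 : ζ⁻¹ = cj ζ := inv_eq_of_mul_eq_one_left hζ
  unfold gI
  rw [h2]
  simp

private lemma h1_continuousAt {f : (Idx k → ℂ) → (Idx k → ℂ)} (hf : Differentiable ℂ f)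
    {ζ : ℂ} (hζ : ζ ≠ 0) : ContinuousAt (gI k f) ζ := by
  have hU : IsOpen {z : ℂ | z ≠ 0} := isOpen_ne
  have hcont : Continuous fun z : {z : ℂ // z ≠ 0} => gI k f z := by
    unfold gI
    have hi : Continuous fun z : {z : ℂ // z ≠ 0} => (z : ℂ)⁻¹ :=
      continuous_subtype_val.inv₀ (fun z => z.2)
    refine hi.mul ?_
    refine intervalIntegral.continuous_parametric_intervalIntegral_of_continuous' ?_ _ _
    refine (DD_continuous k hf).comp (continuous_pt k ?_ ?_)
    · have h3 : Continuous fun q : {z : ℂ // z ≠ 0} × ℝ => (q.1 : ℂ)⁻¹ := hi.comp continuous_fst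
      have h4 : Continuous fun q : {z : ℂ // z ≠ 0} × ℝ => cj (q.1 : ℂ) :=
        Complex.continuous_conj.comp (continuous_subtype_val.comp continuous_fst)
      have h5 : Continuous fun q : {z : ℂ // z ≠ 0} × ℝ => ((q.2 : ℝ) : ℂ) :=
        Complex.continuous_ofReal.comp continuous_snd
      exact h3.add (h5.mul (h4.sub h3))
    · exact continuous_subtype_val.comp continuous_fst
  have h2 : ContinuousOn (gI k f) {z : ℂ | z ≠ 0} := continuousOn_iff_continuous_domRestrict.2 hcont
  exact h2.continuousAt (hU.mem_nhds hζ)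

private lemma normSq_one {ζ : ℂ} : cj ζ * ζ = 1 ↔ ‖ζ‖ = 1 := by
  rw [Complex.conj_mul']
  constructor
  · intro h
    have h2 : ‖ζ‖ ^ 2 = 1 := by exact_mod_cast h
    exact (pow_eq_one_iff_of_nonneg (norm_nonneg _) (by norm_num)).1 h2
  · intro h
    rw [h]
    norm_num

private lemma hh_continuous {f : (Idx k → ℂ) → (Idx k → ℂ)} (hf : Differentiable ℂ f)
    (h0 : ∀ p ∈ Xset k, PP k f p = 0) : Continuous (hh k f) := by
  rw [continuous_iff_continuousAt]
  intro ζ
  by_cases hζ : ζ = 0
  · subst hζ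
    have h2 : hh k f =ᶠ[nhds 0] fun ζ => PP k f (pt k (cj ζ) ζ) / (cj ζ * ζ - 1) := by
      filter_upwards [Metric.ball_mem_nhds (0 : ℂ) one_pos] with z hz
      have : ‖z‖ < 1 := by simpa using hz
      simp only [hh, if_pos this]
    refine ContinuousAt.congr ?_ h2.symm
    have hc1 : Continuous fun z : ℂ => pt k (cj z) z :=
      continuous_pt k Complex.continuous_conj continuous_id
    refine ContinuousAt.div ?_ ?_ ?_
    · have : Continuous fun z : ℂ => PP k f (pt k (cj z) z) := by
        unfold PP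
        have h3 : Continuous fun z : ℂ => f (pt k (cj z) z) := hf.continuous.comp hc1
        exact (((continuous_apply (inl 0)).comp h3).mul ((continuous_apply (inl 1)).comp h3)).sub
          continuous_const
      exact this.continuousAt
    · exact ((Complex.continuous_conj.mul continuous_id).sub continuous_const).continuousAt
    · simp
  · have h2 : hh k f =ᶠ[nhds ζ] gI k f := by
      filter_upwards [isOpen_ne.mem_nhds hζ] with z hz
      by_cases hz1 : ‖z‖ < 1
      · simp only [hh, if_pos hz1]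
        have h3 : cj z * z - 1 ≠ 0 := by
          intro h4
          have := normSq_one.1 (sub_eq_zero.1 h4)
          linarith
        rw [div_eq_iff h3, mul_comm]
        exact (h1_eq k hf h0 hz).symm
      · simp only [hh, if_neg hz1]
    exact (h1_continuousAt k hf hζ).congr h2.symm

end Analytic

section Final

variable (k : ℕ)

/-- the eigenvalues of the derivative in the directions `z_j` -/
private noncomputable def eig (m : ℕ) (ζ : ℂ) (j : Fin (k + 1)) : ℂ := if j = 0 then cj ζ ^ m else 1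

private lemma jac_circle (m : ℕ) {f : (Idx k → ℂ) → (Idx k → ℂ)} (hf : Differentiable ℂ f)
    (hext : ∀ p ∈ Xset k, f p = scale k (p (inl 0) ^ m) p) {ζ : ℂ} (hζ : cj ζ * ζ = 1) :
    jac f (pt k (cj ζ) ζ) = cj ζ ^ m * (cj ζ * DD k f (pt k (cj ζ) ζ)) := by
  set p : Idx k → ℂ := pt k (cj ζ) ζ with hp
  have hpX : p ∈ Xset k := hζ
  have hfp : f p = p := by rw [hext p hpX, hp, scale_pt]
  set M : Matrix (Idx k) (Idx k) ℂ := LinearMap.toMatrix' (fderiv ℂ f p).toLinearMap with hM
  have hMa : ∀ a i, M a i = (fderiv ℂ f p (Pi.single i 1)) a := by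
    intro a i
    rw [hM, LinearMap.toMatrix'_apply]
    rfl
  -- the directions `z_j`
  have hz : ∀ (j : Fin (k + 1)) (a : Idx k), M a (inr j) = if a = inr j then eig k m ζ j else 0 := by
    intro j a
    rw [hMa, fderiv_apply_eq hf]
    have hmem : ∀ s : ℂ, p + s • (Pi.single (inr j) 1 : Idx k → ℂ) ∈ Xset k := by
      intro s
      show (p + s • (Pi.single (inr j) 1 : Idx k → ℂ)) (inl 0) *
        (p + s • (Pi.single (inr j) 1 : Idx k → ℂ)) (inl 1) = 1
      have e0 : (p + s • (Pi.single (inr j) 1 : Idx k → ℂ)) (inl 0) = cj ζ := by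
        simp [hp, pt_0]
      have e1 : (p + s • (Pi.single (inr j) 1 : Idx k → ℂ)) (inl 1) = ζ := by
        simp [hp, pt_1]
      rw [e0, e1, hζ]
    have h1 : ∀ s : ℂ, f (p + s • (Pi.single (inr j) 1 : Idx k → ℂ)) a
        = p a + s * (if a = inr j then eig k m ζ j else 0) := by
      intro s
      rw [hext _ (hmem s)]
      have e0 : (p + s • (Pi.single (inr j) 1 : Idx k → ℂ)) (inl 0) = cj ζ := by
        simp [hp, pt_0]
      rw [e0]
      by_cases ha : a = inr 0
      · subst ha
        rw [scale_0]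
        by_cases hj : j = 0
        · subst hj
          simp [hp, pt_r, eig]
          ring
        · have : (inr 0 : Idx k) ≠ inr j := fun h => hj (Sum.inr_injective h).symm
          simp [hp, pt_r, this]
      · have h3 : scale k (cj ζ ^ m) (p + s • (Pi.single (inr j) 1 : Idx k → ℂ)) a
            = (p + s • (Pi.single (inr j) 1 : Idx k → ℂ)) a := by
          simp [scale, ha]
        rw [h3]
        by_cases haj : a = inr j
        · subst haj
          have hj : j ≠ 0 := fun h => ha (by rw [h])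
          simp [eig, hj]
        · simp [haj]
    simp only [h1]
    have h2 : HasDerivAt (fun s : ℂ => p a + s * (if a = inr j then eig k m ζ j else 0))
        (if a = inr j then eig k m ζ j else 0) 0 := by
      have := ((hasDerivAt_id (0 : ℂ)).mul_const
        (if a = inr j then eig k m ζ j else 0)).const_add (p a)
      simpa using this
    exact h2.deriv
  -- the tangent direction of the curve
  have ht : fderiv ℂ f p (pt k (cj ζ) (-ζ)) = pt k (cj ζ) (-ζ) := by
    have hγ : HasDerivAt (fun s : ℂ => pt k (cj ζ * Complex.exp s) (ζ * Complex.exp (-s)))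
        (pt k (cj ζ) (-ζ)) 0 := by
      apply hasDerivAt_pt
      · have := (Complex.hasDerivAt_exp (0 : ℂ)).const_mul (cj ζ)
        simpa using this
      · have h4 : HasDerivAt (fun s : ℂ => Complex.exp (-s)) (-1) 0 := by
          have h5 := (Complex.hasDerivAt_exp (-(0 : ℂ))).comp (0 : ℂ) (hasDerivAt_neg (0 : ℂ))
          have h6 : Complex.exp (-(0 : ℂ)) * (-1 : ℂ) = -1 := by simp
          rw [h6] at h5
          exact h5
        have := h4.const_mul ζ
        simpa using this
    have hγ0 : pt k (cj ζ * Complex.exp 0) (ζ * Complex.exp (-0)) = p := by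
      rw [hp]
      simp
    have h5 : HasDerivAt (fun s : ℂ => f (pt k (cj ζ * Complex.exp s) (ζ * Complex.exp (-s))))
        (fderiv ℂ f p (pt k (cj ζ) (-ζ))) 0 := by
      have h6 : HasFDerivAt f (fderiv ℂ f p) (pt k (cj ζ * Complex.exp 0) (ζ * Complex.exp (-0))) := by
        rw [hγ0]
        exact (hf p).hasFDerivAt
      exact h6.comp_hasDerivAt (0 : ℂ) hγ
    have h7 : (fun s : ℂ => f (pt k (cj ζ * Complex.exp s) (ζ * Complex.exp (-s))))
        = fun s : ℂ => pt k (cj ζ * Complex.exp s) (ζ * Complex.exp (-s)) := by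
      funext s
      have hm : pt k (cj ζ * Complex.exp s) (ζ * Complex.exp (-s)) ∈ Xset k := by
        show (cj ζ * Complex.exp s) * (ζ * Complex.exp (-s)) = 1
        have h8 : Complex.exp s * Complex.exp (-s) = 1 := by
          rw [← Complex.exp_add, add_neg_cancel, Complex.exp_zero]
        linear_combination (Complex.exp s * Complex.exp (-s)) * hζ + h8
      rw [hext _ hm, scale_pt]
    rw [h7] at h5
    exact h5.unique hγ
  have hsplit : pt k (cj ζ) (-ζ) = cj ζ • (Pi.single (inl 0) 1 : Idx k → ℂ)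
      + (-ζ) • (Pi.single (inl 1) 1 : Idx k → ℂ) := by
    funext i
    rcases i with i | j
    · fin_cases i
      · simp [pt]
      · simp [pt]
    · simp [pt]
  have hrow : ∀ a, M a (inl 0) * cj ζ - M a (inl 1) * ζ = pt k (cj ζ) (-ζ) a := by
    intro a
    have h4 := congrFun ht a
    rw [hsplit, map_add, map_smul, map_smul, ← hsplit] at h4
    rw [hMa, hMa, ← h4]
    simp only [Pi.add_apply, Pi.smul_apply, smul_eq_mul]
    ring
  have r0 := hrow (inl 0)
  have r1 := hrow (inl 1)
  rw [pt_0] at r0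
  rw [pt_1] at r1
  -- the determinant
  have hblock : M = Matrix.fromBlocks M.toBlocks₁₁ 0 M.toBlocks₂₁
      (Matrix.diagonal (eig k m ζ)) := by
    have h12 : M.toBlocks₁₂ = 0 := by
      ext a j
      show M (inl a) (inr j) = 0
      rw [hz j, if_neg (by simp)]
    have h22 : M.toBlocks₂₂ = Matrix.diagonal (eig k m ζ) := by
      ext a j
      show M (inr a) (inr j) = _
      rw [hz j]
      by_cases haj : a = j
      · subst haj
        simp
      · rw [Matrix.diagonal_apply_ne _ haj, if_neg (fun h => haj (Sum.inr_injective h))]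
    conv_lhs => rw [← Matrix.fromBlocks_toBlocks M, h12, h22]
  have hdet : M.det = M.toBlocks₁₁.det * (Matrix.diagonal (eig k m ζ)).det := by
    conv_lhs => rw [hblock]
    rw [Matrix.det_fromBlocks_zero₁₂]
  have hdiag : (Matrix.diagonal (eig k m ζ)).det = cj ζ ^ m := by
    rw [Matrix.det_diagonal]
    simp [eig, Finset.prod_ite_eq']
  have h11 : M.toBlocks₁₁.det = M (inl 0) (inl 0) * M (inl 1) (inl 1)
      - M (inl 0) (inl 1) * M (inl 1) (inl 0) := by
    rw [Matrix.det_fin_two]
    rfl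
  have hD : DD k f p = M (inl 0) (inl 0) * ζ + cj ζ * M (inl 1) (inl 0) := by
    unfold DD
    rw [hfp, hMa, hMa, hp, pt_0, pt_1]
  have hjac : jac f p = M.det := rfl
  rw [hjac, hdet, hdiag, h11, hD]
  have hz2 : ζ ≠ 0 := right_ne_zero_of_mul_eq_one hζ
  have hb : M (inl 0) (inl 1) = cj ζ * (M (inl 0) (inl 0) * cj ζ - cj ζ) := by
    apply mul_right_cancel₀ hz2
    linear_combination (-1 : ℂ) * r0 - (M (inl 0) (inl 0) * cj ζ - cj ζ) * hζ
  have hd : M (inl 1) (inl 1) = cj ζ * (M (inl 1) (inl 0) * cj ζ + ζ) := by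
    apply mul_right_cancel₀ hz2
    linear_combination (-1 : ℂ) * r1 - (M (inl 1) (inl 0) * cj ζ + ζ) * hζ
  rw [hb, hd]
  ring

private theorem no_ext {m : ℕ} (hm : 1 ≤ m)
    (Φ : (Set.univ : Set (Idx k → ℂ)) ≃ (Set.univ : Set (Idx k → ℂ)))
    (h : IsHolomorphicAut Φ) : ¬ Extends Φ (phi k m) := by
  intro hE
  set f : (Idx k → ℂ) → (Idx k → ℂ) := fun p => (Φ ⟨p, Set.mem_univ p⟩ : Idx k → ℂ) with hf
  set g : (Idx k → ℂ) → (Idx k → ℂ) := fun p => (Φ.symm ⟨p, Set.mem_univ p⟩ : Idx k → ℂ) with hg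
  have hfd : Differentiable ℂ f := differentiable_of_hol k h.1
  have hgd : Differentiable ℂ g := differentiable_of_hol k h.2
  have hgf : ∀ p, g (f p) = p := by
    intro p
    simp only [hf, hg]
    have : (⟨((Φ ⟨p, Set.mem_univ p⟩ : (Set.univ : Set (Idx k → ℂ))) : Idx k → ℂ),
      Set.mem_univ _⟩ : (Set.univ : Set (Idx k → ℂ))) = Φ ⟨p, Set.mem_univ p⟩ := rfl
    rw [this, Equiv.symm_apply_apply]
  have hext : ∀ p (hp : p ∈ Xset k), f p = scale k (p (inl 0) ^ m) p := by
    intro p hp
    exact hE ⟨p, hp⟩ ⟨p, Set.mem_univ p⟩ rfl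
  have hinv : ∀ q, f q ∈ Xset k → q ∈ Xset k := by
    intro q hq
    have h1 := (phi k m).right_inv ⟨f q, hq⟩
    have h2 := hE ((phi k m).symm ⟨f q, hq⟩) ⟨_, Set.mem_univ _⟩ rfl
    have h3 : f ((phi k m).symm ⟨f q, hq⟩ : Xset k) = f q := by
      have h4 : ((phi k m ((phi k m).symm ⟨f q, hq⟩) : Xset k) : Idx k → ℂ) = f q := by
        rw [Equiv.apply_symm_apply]
      exact h2.trans h4
    have h5 := congrArg g h3
    rw [hgf, hgf] at h5
    rw [← h5]
    exact ((phi k m).symm ⟨f q, hq⟩).2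
  have h0 : ∀ p ∈ Xset k, PP k f p = 0 := by
    intro p hp
    have h1 : scale k (p (inl 0) ^ m) p ∈ Xset k := scale_mem k _ hp
    rw [← hext p hp] at h1
    exact sub_eq_zero.2 h1
  have hne : ∀ q, q ∉ Xset k → PP k f q ≠ 0 := by
    intro q hq h1
    exact hq (hinv q (sub_eq_zero.1 h1))
  have hJ : Continuous fun ζ : ℂ => jac f (pt k (cj ζ) ζ) :=
    (jac_continuous hfd).comp (continuous_pt k Complex.continuous_conj continuous_id)
  have hJ0 : ∀ ζ : ℂ, jac f (pt k (cj ζ) ζ) ≠ 0 := fun ζ => jac_ne_zero hfd hgd hgf _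
  have hcirc : ∀ ζ : ℂ, ‖ζ‖ = 1 → jac f (pt k (cj ζ) ζ) = cj ζ ^ m * hh k f ζ := by
    intro ζ hζ
    have h1 : cj ζ * ζ = 1 := normSq_one.2 hζ
    have h2 : hh k f ζ = gI k f ζ := by
      simp only [hh, if_neg (not_lt.2 hζ.ge)]
    rw [h2, h1_circle k h1, jac_circle k m hfd hext h1]
  have hh0 : ∀ ζ, hh k f ζ ≠ 0 := by
    intro ζ
    by_cases hζ : ‖ζ‖ = 1
    · intro h1
      have h2 := hcirc ζ hζ
      rw [h1, mul_zero] at h2
      exact hJ0 ζ h2
    · have hX : pt k (cj ζ) ζ ∉ Xset k := fun h1 => hζ (normSq_one.1 h1)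
      have h2 := hne _ hX
      have h3 : cj ζ * ζ - 1 ≠ 0 := fun h4 => hζ (normSq_one.1 (sub_eq_zero.1 h4))
      by_cases h4 : ‖ζ‖ < 1
      · simp only [hh, if_pos h4]
        exact div_ne_zero h2 h3
      · simp only [hh, if_neg h4]
        have hz : ζ ≠ 0 := by
          rintro rfl
          simp at h4
        intro h5
        have h6 := h1_eq k hfd h0 hz
        rw [h5, mul_zero] at h6
        exact h2 h6.symm
  refine no_winding_pow (g := fun ζ => jac f (pt k (cj ζ) ζ) * (hh k f ζ)⁻¹)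
    (hJ.mul ((hh_continuous k hfd h0).inv₀ hh0))
    (fun ζ => mul_ne_zero (hJ0 ζ) (inv_ne_zero (hh0 ζ))) hm ?_
  intro ζ hζ
  have h1 : cj ζ * ζ = 1 := normSq_one.2 hζ
  show ζ ^ m * (jac f (pt k (cj ζ) ζ) * (hh k f ζ)⁻¹) = 1
  rw [hcirc ζ hζ, mul_assoc (cj ζ ^ m), mul_inv_cancel₀ (hh0 ζ), mul_one, ← mul_pow,
    mul_comm ζ, h1, one_pow]

/-- Main result. For every `k ≥ 0` and `m ≥ 1` the affine-algebraic manifold `Z = ℂ^(k+3)` has the
algebraic overshear density property, the hypersurface `X = {x y = 1}` of `Z` is an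
affine-algebraic manifold (smooth and irreducible), and the algebraic automorphism
`(x, y; z_0, z_1, ...) ↦ (x, y; x^m z_0, z_1, ...)` of `X` does not extend to a holomorphic
automorphism of `ℂ^(k+3)`. -/
theorem result (k m : ℕ) (hm : 1 ≤ m) :
    IsAffineManifold (Set.univ : Set (Idx k → ℂ)) ∧ HasAOSDP (Set.univ : Set (Idx k → ℂ)) ∧
      IsSubvariety (Xset k) Set.univ ∧ IsAffineManifold (Xset k) ∧
      ∃ φ : Xset k ≃ Xset k, IsAlgebraicIso φ ∧
        (∀ p : Xset k, ∀ i, (φ p : Idx k → ℂ) i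
          = if i = inr 0 then (p : Idx k → ℂ) (inl 0) ^ m * (p : Idx k → ℂ) i
            else (p : Idx k → ℂ) i) ∧
        ∀ Φ : (Set.univ : Set (Idx k → ℂ)) ≃ (Set.univ : Set (Idx k → ℂ)),
          IsHolomorphicAut Φ → ¬ Extends Φ φ :=
  ⟨manifold_univ k, aosdp_univ k, ⟨algebraic_X k, Set.subset_univ _⟩, manifold_X k,
    phi k m, phi_alg k m, fun _ _ => rfl, no_ext k hm⟩

end Final

end Pool.Agent.Results.MP_563419_an.SmoothHypersurface
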